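import Mathlib
import Pool.Agent.W926.PS.Stm

/-!
Project PS (MP_e58d4b_co): statement S_L20 (at most twenty patterns).
-/

namespace Pool.Agent.W532.PS

open Finset W926.PS

/-- the points in increasing order -/
def P : Fin 20 → Fin 6 → Fin 6 := ![
  ![0, 3, 1, 4, 2, 5], ![0, 3, 2, 5, 1, 4], ![1, 4, 0, 3, 2, 5],
  ![1, 4, 2, 5, 0, 3], ![2, 5, 0, 3, 1, 4], ![2, 5, 1, 4, 0, 3],
  ![3, 0, 4, 1, 5, 2], ![3, 0, 5, 2, 4, 1], ![4, 1, 3, 0, 5, 2],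
  ![4, 1, 5, 2, 3, 0], ![5, 2, 3, 0, 4, 1], ![5, 2, 4, 1, 3, 0],
  ![0, 1, 2, 3, 4, 5], ![0, 1, 2, 5, 4, 3], ![2, 1, 0, 3, 4, 5], ![2, 1, 0, 5, 4, 3],
  ![3, 4, 5, 0, 1, 2], ![5, 4, 3, 0, 1, 2], ![3, 4, 5, 2, 1, 0], ![5, 4, 3, 2, 1, 0]]

theorem P_surj : ∀ (t : Fin 20) (i : Fin 6), ∃ k, P t k = i := by decide

/-- the rank of a point -/
noncomputable def R (t : Fin 20) (i : Fin 6) : Fin 6 := Classical.choose (P_surj t i)

theorem P_R (t : Fin 20) (i : Fin 6) : P t (R t i) = i := Classical.choose_spec (P_surj t i)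

theorem pat (v : Fin 6 → ℕ) (t : Fin 20)
    (h0 : v (P t 0) < v (P t 1)) (h1 : v (P t 1) < v (P t 2)) (h2 : v (P t 2) < v (P t 3))
    (h3 : v (P t 3) < v (P t 4)) (h4 : v (P t 4) < v (P t 5)) :
    (fun i k => decide (v i < v k)) = (fun i k => decide (R t i < R t k)) := by
  have hm : StrictMono (fun i => v (P t i)) := by
    apply Fin.strictMono_iff_lt_succ.2
    intro i
    fin_cases i
    · exact h0
    · exact h1
    · exact h2
    · exact h3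
    · exact h4
  funext i k
  have := hm.lt_iff_lt (a := R t i) (b := R t k)
  simp only [P_R] at this
  rw [decide_eq_decide]
  exact this

theorem iffs {p q r s w u : ℕ} (h1 : p < q ↔ r < s) (h2 : p < q ↔ w < u) (n1 : p ≠ q)
    (n2 : r ≠ s) (n3 : w ≠ u) : (p < q ∧ r < s ∧ w < u) ∨ (q < p ∧ s < r ∧ u < w) := by
  rcases lt_or_gt_of_ne n1 with h | h
  · exact Or.inl ⟨h, h1.1 h, h2.1 h⟩
  · have a1 : ¬ r < s := fun e => absurd (h1.2 e) (not_lt.2 h.le)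
    have a2 : ¬ w < u := fun e => absurd (h2.2 e) (not_lt.2 h.le)
    exact Or.inr ⟨h, lt_of_le_of_ne (not_lt.1 a1) n2.symm, lt_of_le_of_ne (not_lt.1 a2) n3.symm⟩

/-- the pattern `t` is the pattern of the six numbers -/
def Is (t : Fin 20) (x0 x1 x2 z0 z1 z2 : ℕ) : Prop :=
  ![x0, x1, x2, z0, z1, z2] (P t 0) < ![x0, x1, x2, z0, z1, z2] (P t 1) ∧
      ![x0, x1, x2, z0, z1, z2] (P t 1) < ![x0, x1, x2, z0, z1, z2] (P t 2) ∧
      ![x0, x1, x2, z0, z1, z2] (P t 2) < ![x0, x1, x2, z0, z1, z2] (P t 3) ∧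
      ![x0, x1, x2, z0, z1, z2] (P t 3) < ![x0, x1, x2, z0, z1, z2] (P t 4) ∧
      ![x0, x1, x2, z0, z1, z2] (P t 4) < ![x0, x1, x2, z0, z1, z2] (P t 5)

theorem exSep (x0 x1 x2 z0 z1 z2 : ℕ)
    (ty : (x0 < z0 ∧ x1 < z1 ∧ x2 < z2) ∨ (z0 < x0 ∧ z1 < x1 ∧ z2 < x2))
    (s01 : (x0 < x1 ∧ x0 < z1 ∧ z0 < x1 ∧ z0 < z1) ∨ (x1 < x0 ∧ z1 < x0 ∧ x1 < z0 ∧ z1 < z0))
    (s02 : (x0 < x2 ∧ x0 < z2 ∧ z0 < x2 ∧ z0 < z2) ∨ (x2 < x0 ∧ z2 < x0 ∧ x2 < z0 ∧ z2 < z0))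
    (s12 : (x1 < x2 ∧ x1 < z2 ∧ z1 < x2 ∧ z1 < z2) ∨
      (x2 < x1 ∧ z2 < x1 ∧ x2 < z1 ∧ z2 < z1)) :
    ∃ t : Fin 20, Is t x0 x1 x2 z0 z1 z2 := by
  rcases s01 with h1 | h1 <;> rcases s02 with h2 | h2 <;> rcases s12 with h3 | h3
  · rcases ty with ty | ty
    · exact ⟨0, by simp [Is, P]; omega⟩
    · exact ⟨6, by simp [Is, P]; omega⟩
  · rcases ty with ty | ty
    · exact ⟨1, by simp [Is, P]; omega⟩
    · exact ⟨7, by simp [Is, P]; omega⟩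
  · omega
  · rcases ty with ty | ty
    · exact ⟨4, by simp [Is, P]; omega⟩
    · exact ⟨10, by simp [Is, P]; omega⟩
  · rcases ty with ty | ty
    · exact ⟨2, by simp [Is, P]; omega⟩
    · exact ⟨8, by simp [Is, P]; omega⟩
  · omega
  · rcases ty with ty | ty
    · exact ⟨3, by simp [Is, P]; omega⟩
    · exact ⟨9, by simp [Is, P]; omega⟩
  · rcases ty with ty | ty
    · exact ⟨5, by simp [Is, P]; omega⟩
    · exact ⟨11, by simp [Is, P]; omega⟩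

theorem exHom (x0 x1 x2 z0 z1 z2 : ℕ)
    (ty : (x0 < z0 ∧ x1 < z1 ∧ x2 < z2) ∨ (z0 < x0 ∧ z1 < x1 ∧ z2 < x2))
    (h1 : (x0 < x1 ∧ x0 < x2 ∧ x1 < x2) ∨ (x1 < x0 ∧ x2 < x0 ∧ x2 < x1))
    (h2 : (x0 < z1 ∧ x0 < z2 ∧ x1 < z2) ∨ (z1 < x0 ∧ z2 < x0 ∧ z2 < x1))
    (h3 : (z0 < x1 ∧ z0 < x2 ∧ z1 < x2) ∨ (x1 < z0 ∧ x2 < z0 ∧ x2 < z1))
    (h4 : (z0 < z1 ∧ z0 < z2 ∧ z1 < z2) ∨ (z1 < z0 ∧ z2 < z0 ∧ z2 < z1)) :
    ∃ t : Fin 20, Is t x0 x1 x2 z0 z1 z2 := by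
  rcases ty with ty | ty <;> rcases h1 with h1 | h1 <;> rcases h2 with h2 | h2 <;>
    rcases h3 with h3 | h3 <;> rcases h4 with h4 | h4 <;> first
    | (exfalso; omega)
    | exact ⟨0, by simp [Is, P]; omega⟩
    | exact ⟨5, by simp [Is, P]; omega⟩
    | exact ⟨6, by simp [Is, P]; omega⟩
    | exact ⟨11, by simp [Is, P]; omega⟩
    | exact ⟨12, by simp [Is, P]; omega⟩
    | exact ⟨13, by simp [Is, P]; omega⟩
    | exact ⟨14, by simp [Is, P]; omega⟩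
    | exact ⟨15, by simp [Is, P]; omega⟩
    | exact ⟨16, by simp [Is, P]; omega⟩
    | exact ⟨17, by simp [Is, P]; omega⟩
    | exact ⟨18, by simp [Is, P]; omega⟩
    | exact ⟨19, by simp [Is, P]; omega⟩

theorem l20 : S_L20 := by
  intro β ι _ key a b hinj hsix h
  classical
  have hsub : (univ.image (fun l => ipat (six a b) (key l))) ⊆
      (univ.image (fun (t : Fin 20) (i k : Fin 6) => decide (R t i < R t k))) := by
    intro f hf
    rw [mem_image] at hf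
    obtain ⟨l, -, rfl⟩ := hf
    obtain ⟨hty, hs⟩ := h l
    have hne : ∀ i k : Fin 6, i ≠ k → key l (six a b i) ≠ key l (six a b k) :=
      fun i k hik e => hik (hsix (hinj l e))
    have hty' : (key l (a 0) < key l (b 0) ∧ key l (a 1) < key l (b 1) ∧
        key l (a 2) < key l (b 2)) ∨ (key l (b 0) < key l (a 0) ∧ key l (b 1) < key l (a 1) ∧
        key l (b 2) < key l (a 2)) := by
      rcases hty with hty | hty
      · exact Or.inl ⟨hty 0, hty 1, hty 2⟩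
      · exact Or.inr ⟨hty 0, hty 1, hty 2⟩
    have hex : ∃ t : Fin 20, Is t (key l (a 0)) (key l (a 1)) (key l (a 2))
        (key l (b 0)) (key l (b 1)) (key l (b 2)) := by
      rcases hs with hs | hs
      · have s01 := hs 0 1 (by decide)
        have s02 := hs 0 2 (by decide)
        have s12 := hs 1 2 (by decide)
        unfold W926.PS.Sep at s01 s02 s12
        refine exSep _ _ _ _ _ _ hty' ?_ ?_ ?_
        · rcases s01 with ⟨e1, e2, e3, e4⟩ | ⟨e1, e2, e3, e4⟩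
          · exact Or.inl ⟨e1, e2, e3, e4⟩
          · exact Or.inr ⟨e1, e2, e3, e4⟩
        · rcases s02 with ⟨e1, e2, e3, e4⟩ | ⟨e1, e2, e3, e4⟩
          · exact Or.inl ⟨e1, e2, e3, e4⟩
          · exact Or.inr ⟨e1, e2, e3, e4⟩
        · rcases s12 with ⟨e1, e2, e3, e4⟩ | ⟨e1, e2, e3, e4⟩
          · exact Or.inl ⟨e1, e2, e3, e4⟩
          · exact Or.inr ⟨e1, e2, e3, e4⟩
      · obtain ⟨⟨g1, g2⟩, ⟨g3, g4⟩, ⟨g5, g6⟩, ⟨g7, g8⟩⟩ := hs
        exact exHom _ _ _ _ _ _ hty'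
          (iffs g1 g2 (hne 0 1 (by decide)) (hne 0 2 (by decide)) (hne 1 2 (by decide)))
          (iffs g3 g4 (hne 0 4 (by decide)) (hne 0 5 (by decide)) (hne 1 5 (by decide)))
          (iffs g5 g6 (hne 3 1 (by decide)) (hne 3 2 (by decide)) (hne 4 2 (by decide)))
          (iffs g7 g8 (hne 3 4 (by decide)) (hne 3 5 (by decide)) (hne 4 5 (by decide)))
    obtain ⟨t, h0, h1, h2, h3, h4⟩ := hex
    have hv : (![key l (a 0), key l (a 1), key l (a 2), key l (b 0), key l (b 1), key l (b 2)] :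
        Fin 6 → ℕ) = fun i => key l (six a b i) := by
      funext i
      fin_cases i <;> rfl
    rw [mem_image]
    refine ⟨t, mem_univ _, ?_⟩
    have := pat _ t h0 h1 h2 h3 h4
    rw [← this, hv]
    rfl
  calc (univ.image (fun l => ipat (six a b) (key l))).card
      ≤ (univ.image (fun (t : Fin 20) (i k : Fin 6) => decide (R t i < R t k))).card :=
        card_le_card hsub
    _ ≤ (univ : Finset (Fin 20)).card := card_image_le
    _ = 20 := by simp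

end Pool.Agent.W532.PS
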